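import Mathlib

/-!
# `p`-th powers of matrices near `1`
-/

set_option autoImplicit false

namespace Pool.Agent.H73.BI

open Finset

variable {F : Type*} [NormedField F] [IsUltrametricDist F] {ι : Type*} [Fintype ι] [DecidableEq ι]

/-- all entries of `A - 1` are at most `c` -/
def Near (c : ℝ) (A : Matrix ι ι F) : Prop := ∀ i j, ‖(A - 1) i j‖ ≤ c

theorem pow_entry {c : ℝ} (hc : 0 ≤ c) (X : Matrix ι ι F)
    (hX : ∀ i j, ‖X i j‖ ≤ c) (k : ℕ) : ∀ i j, ‖(X ^ (k + 1)) i j‖ ≤ c ^ (k + 1) := by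
  induction k with
  | zero => intro i j; simpa using hX i j
  | succ k ih =>
    intro i j
    rw [pow_succ X, Matrix.mul_apply]
    apply IsUltrametricDist.norm_sum_le_of_forall_le_of_nonneg (by positivity)
    intro l _
    rw [norm_mul, pow_succ c]
    exact mul_le_mul (ih i l) (hX l j) (norm_nonneg _) (by positivity)

theorem near_pow (p : ℕ) (hp : p.Prime) {c : ℝ} (hc : 0 ≤ c) (hcp : c ≤ ‖(p : F)‖)
    (A : Matrix ι ι F) (hA : Near c A) : Near (‖(p : F)‖ * c) (A ^ p) := by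
  have hp1 : ‖(p : F)‖ ≤ 1 := IsUltrametricDist.norm_natCast_le_one F p
  have hc1 : c ≤ 1 := hcp.trans hp1
  obtain ⟨X, hX⟩ : ∃ X, X = A - 1 := ⟨_, rfl⟩
  have hA' : A = X + 1 := by rw [hX]; simp
  have hXe : ∀ i j, ‖X i j‖ ≤ c := by rw [hX]; exact hA
  have e : A ^ p - 1 = ∑ m ∈ range p, X ^ (m + 1) * ((p.choose (m + 1) : ℕ) :
      Matrix ι ι F) := by
    rw [hA', (Commute.one_right X).add_pow, Finset.sum_range_succ']
    simp
  intro i j
  rw [e, Matrix.sum_apply]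
  apply IsUltrametricDist.norm_sum_le_of_forall_le_of_nonneg (by positivity)
  intro m hm
  rw [Finset.mem_range] at hm
  have e2 : (X ^ (m + 1) * ((p.choose (m + 1) : ℕ) : Matrix ι ι F)) i j =
      (X ^ (m + 1)) i j * ((p.choose (m + 1) : ℕ) : F) := by
    rw [← Matrix.diagonal_natCast, Matrix.mul_diagonal]
  rw [e2, norm_mul]
  have h1 := pow_entry hc X hXe m i j
  by_cases hmp : m + 1 = p
  · rw [hmp, Nat.choose_self, Nat.cast_one, norm_one, mul_one]
    rw [hmp] at h1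
    apply h1.trans
    obtain ⟨q, hq⟩ : ∃ q, p = q + 2 := ⟨p - 2, by have := hp.two_le; omega⟩
    have : c ^ p = c ^ (q + 1) * c := by rw [hq]; ring
    rw [this]
    apply mul_le_mul_of_nonneg_right _ hc
    calc c ^ (q + 1) = c ^ q * c := by ring
      _ ≤ 1 * c := mul_le_mul_of_nonneg_right (pow_le_one₀ hc hc1) hc
      _ ≤ ‖(p : F)‖ := by rw [one_mul]; exact hcp
  · have hd : p ∣ p.choose (m + 1) := hp.dvd_choose_self (by omega) (by omega)
    obtain ⟨d, hd⟩ := hd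
    rw [hd, Nat.cast_mul, norm_mul]
    have hd1 : ‖(d : F)‖ ≤ 1 := IsUltrametricDist.norm_natCast_le_one F d
    have h2 : c ^ (m + 1) ≤ c := by
      calc c ^ (m + 1) = c ^ m * c := by ring
        _ ≤ 1 * c := mul_le_mul_of_nonneg_right (pow_le_one₀ hc hc1) hc
        _ = c := one_mul c
    calc ‖(X ^ (m + 1)) i j‖ * (‖(p : F)‖ * ‖(d : F)‖) ≤ c * (‖(p : F)‖ * 1) := by
          apply mul_le_mul (h1.trans h2) _ (by positivity) hc
          exact mul_le_mul_of_nonneg_left hd1 (norm_nonneg _)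
      _ = ‖(p : F)‖ * c := by ring

theorem near_pow_pow (p : ℕ) (hp : p.Prime)
    (A : Matrix ι ι F) (hA : Near ‖(p : F)‖ A) (k : ℕ) :
    Near (‖(p : F)‖ ^ (k + 1)) (A ^ p ^ k) := by
  have hp1 : ‖(p : F)‖ ≤ 1 := IsUltrametricDist.norm_natCast_le_one F p
  induction k with
  | zero => simpa using hA
  | succ k ih =>
    have := near_pow p hp (by positivity) (by
      calc ‖(p : F)‖ ^ (k + 1) = ‖(p : F)‖ ^ k * ‖(p : F)‖ := by ring
        _ ≤ 1 * ‖(p : F)‖ := mul_le_mul_of_nonneg_right (pow_le_one₀ (norm_nonneg _) hp1)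
              (norm_nonneg _)
        _ = _ := one_mul _) _ ih
    rw [← pow_mul, ← pow_succ] at this
    have e : ‖(p : F)‖ * ‖(p : F)‖ ^ (k + 1) = ‖(p : F)‖ ^ (k + 1 + 1) := by ring
    rwa [e] at this

end Pool.Agent.H73.BI
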