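import Pool.Agent.H73.BI.Near

/-!
# Closed subgroups of bounded `p`-index have open image in a `p`-adic matrix group
-/

set_option autoImplicit false

namespace Pool.Agent.H73.BI

open Finset

variable {F : Type*} [NormedField F] [IsUltrametricDist F] {ι : Type*} [Fintype ι] [DecidableEq ι]
variable {G : Type*} [Group G] [TopologicalSpace G] [IsTopologicalGroup G] [CompactSpace G]

theorem continuous_entry (f : G →* GL ι F) (hf : Continuous f) (i j : ι) :
    Continuous fun g => ((f g : Matrix ι ι F) - 1) i j :=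
  Continuous.matrix_elem ((Units.continuous_val.comp hf).sub continuous_const) i j

/-- sum of the norms of the entries of `f g - 1` -/
noncomputable def dist1 (f : G →* GL ι F) (g : G) : ℝ :=
  ∑ i, ∑ j, ‖((f g : Matrix ι ι F) - 1) i j‖

theorem exists_delta (f : G →* GL ι F) (hf : Continuous f) (U : Subgroup G)
    (hU : IsOpen (U : Set G)) (hker : f.ker ≤ U) :
    ∃ δ : ℝ, 0 < δ ∧ ∀ g, dist1 f g < δ → g ∈ U := by
  have hcont : Continuous (dist1 f) :=
    continuous_finsetSum _ (fun i _ => continuous_finsetSum _ (fun j _ =>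
      (continuous_entry f hf i j).norm))
  by_cases hne : ((U : Set G)ᶜ).Nonempty
  · obtain ⟨x0, hx0, hmin⟩ := hU.isClosed_compl.isCompact.exists_isMinOn hne hcont.continuousOn
    refine ⟨dist1 f x0, ?_, ?_⟩
    · have h0 : 0 ≤ dist1 f x0 :=
        Finset.sum_nonneg (fun i _ => Finset.sum_nonneg (fun j _ => norm_nonneg _))
      apply lt_of_le_of_ne h0
      intro h
      apply hx0
      apply hker
      rw [MonoidHom.mem_ker]
      unfold dist1 at h
      have h1 := (Finset.sum_eq_zero_iff_of_nonneg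
        (fun i _ => Finset.sum_nonneg (fun j _ => norm_nonneg _))).mp h.symm
      ext i j
      have h2 := (Finset.sum_eq_zero_iff_of_nonneg (fun j _ => norm_nonneg _)).mp
        (h1 i (Finset.mem_univ i)) j (Finset.mem_univ j)
      rw [norm_eq_zero, Matrix.sub_apply, sub_eq_zero] at h2
      rw [h2]; rfl
    · intro g hg
      by_contra hgU
      have := hmin (show g ∈ ((U : Set G)ᶜ) from hgU)
      exact absurd hg (not_lt.mpr this)
  · rw [Set.not_nonempty_iff_eq_empty, Set.compl_empty_iff] at hne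
    refine ⟨1, one_pos, fun g _ => ?_⟩
    have : g ∈ (U : Set G) := by rw [hne]; trivial
    exact this

/-- uniform exponent -/
theorem exists_pow (p : ℕ) (hp : p.Prime) (hp1 : ‖(p : F)‖ < 1) (f : G →* GL ι F)
    (hf : Continuous f) (U : Subgroup G) (hU : IsOpen (U : Set G)) (hker : f.ker ≤ U) :
    ∃ k : ℕ, ∀ g, Near ‖(p : F)‖ (f g : Matrix ι ι F) → g ^ p ^ k ∈ U := by
  obtain ⟨δ, hδ, h⟩ := exists_delta f hf U hU hker
  obtain ⟨k, hk⟩ : ∃ k : ℕ, ‖(p : F)‖ ^ k < δ / ((Fintype.card ι : ℝ) * Fintype.card ι + 1) :=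
    exists_pow_lt_of_lt_one (by positivity) hp1
  refine ⟨k, fun g hg => h _ ?_⟩
  have hn := near_pow_pow p hp _ hg k
  have e : ((f (g ^ p ^ k) : GL ι F) : Matrix ι ι F) =
      (f g : Matrix ι ι F) ^ p ^ k := by
    rw [map_pow, Units.val_pow_eq_pow_val]
  unfold dist1
  rw [e]
  have h1 : ‖(p : F)‖ ^ (k + 1) ≤ ‖(p : F)‖ ^ k := by
    calc ‖(p : F)‖ ^ (k + 1) = ‖(p : F)‖ ^ k * ‖(p : F)‖ := by ring
      _ ≤ ‖(p : F)‖ ^ k * 1 := mul_le_mul_of_nonneg_left hp1.le (by positivity)
      _ = _ := mul_one _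
  have h2 : ∑ i, ∑ j, ‖((f g : Matrix ι ι F) ^ p ^ k - 1) i j‖ ≤
      ∑ i : ι, ∑ j : ι, ‖(p : F)‖ ^ k :=
    Finset.sum_le_sum (fun i _ => Finset.sum_le_sum (fun j _ => (hn i j).trans h1))
  apply lt_of_le_of_lt h2
  simp only [Finset.sum_const, Finset.card_univ, nsmul_eq_mul]
  rw [lt_div_iff₀ (by positivity)] at hk
  have h3 : 0 ≤ ‖(p : F)‖ ^ k := by positivity
  nlinarith

/-- the relative index of `U` in the small normal subgroup is a power of `p` -/
theorem relIndex_pow (p : ℕ) [Fact p.Prime] (hp1 : ‖(p : F)‖ < 1) (f : G →* GL ι F)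
    (hf : Continuous f) (K : Subgroup G) [K.Normal] (hKo : IsOpen (K : Set G))
    (hK : ∀ g ∈ K, Near ‖(p : F)‖ (f g : Matrix ι ι F))
    (U : Subgroup G) (hU : IsOpen (U : Set G)) (hker : f.ker ≤ U) :
    ∃ a : ℕ, U.relIndex K = p ^ a := by
  obtain ⟨k, hk⟩ := exists_pow p (Fact.out : p.Prime) hp1 f hf U hU hker
  haveI : U.FiniteIndex := by
    haveI : Finite (G ⧸ U) := U.quotient_finite_of_isOpen hU
    exact Subgroup.finiteIndex_of_finite_quotient
  haveI hfi : (U.subgroupOf K).FiniteIndex := inferInstance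
  haveI : ((U.subgroupOf K).normalCore).FiniteIndex := inferInstance
  have hpg : IsPGroup p (K ⧸ (U.subgroupOf K).normalCore) := by
    intro q
    obtain ⟨g, rfl⟩ := QuotientGroup.mk_surjective q
    refine ⟨k, ?_⟩
    rw [← QuotientGroup.mk_pow, QuotientGroup.eq_one_iff]
    intro h
    rw [Subgroup.mem_subgroupOf]
    have e : ((h * g ^ p ^ k * h⁻¹ : K) : G) = ((h : G) * (g : G) * (h : G)⁻¹) ^ p ^ k := by
      rw [conj_pow]; simp
    rw [e]
    apply hk
    apply hK
    exact ‹K.Normal›.conj_mem _ g.2 _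
  haveI : Finite (K ⧸ (U.subgroupOf K).normalCore) := Subgroup.finite_quotient_of_finiteIndex
  obtain ⟨a, ha⟩ := IsPGroup.iff_card.mp hpg
  have hd : (U.subgroupOf K).index ∣ ((U.subgroupOf K).normalCore).index :=
    Subgroup.index_dvd_of_le (Subgroup.normalCore_le _)
  have hd' : (U.subgroupOf K).index ∣ p ^ a := by
    rw [← ha]; exact hd
  obtain ⟨b, _, hb⟩ := (Nat.dvd_prime_pow (Fact.out : p.Prime)).mp hd'
  exact ⟨b, hb⟩

/-- A closed subgroup `Z ⊇ ker f` whose open overgroups have index not divisible by `p ^ (C + 1)`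
is open. -/
theorem open_of_index [TotallyDisconnectedSpace G] (p : ℕ) [Fact p.Prime]
    (hp0 : (p : F) ≠ 0) (hp1 : ‖(p : F)‖ < 1) (f : G →* GL ι F)
    (hf : Continuous f) (Z : Subgroup G) (hZ : IsClosed (Z : Set G)) (hker : f.ker ≤ Z) (C : ℕ)
    (hC : ∀ U : Subgroup G, IsOpen (U : Set G) → Z ≤ U → ¬ p ^ (C + 1) ∣ U.index) :
    IsOpen (Z : Set G) := by
  -- the small open normal subgroup
  have hpp : 0 < ‖(p : F)‖ := norm_pos_iff.mpr hp0
  obtain ⟨K, hK⟩ := ProfiniteGrp.exist_openNormalSubgroup_sub_open_nhds_of_one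
    (U := {g : G | ∀ i j, ‖((f g : Matrix ι ι F) - 1) i j‖ < ‖(p : F)‖})
    (by
      have e : {g : G | ∀ i j, ‖((f g : Matrix ι ι F) - 1) i j‖ < ‖(p : F)‖} =
          ⋂ i, ⋂ j, {g : G | ‖((f g : Matrix ι ι F) - 1) i j‖ < ‖(p : F)‖} := by
        ext g; simp
      rw [e]
      exact isOpen_iInter_of_finite (fun i => isOpen_iInter_of_finite (fun j =>
        isOpen_lt (continuous_entry f hf i j).norm continuous_const)))
    (by
      intro i j
      simpa using hpp)
  have hK' : ∀ g ∈ K.toSubgroup, Near ‖(p : F)‖ (f g : Matrix ι ι F) :=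
    fun g hg i j => (hK hg i j).le
  haveI : (K.toSubgroup).Normal := K.isNormal'
  have hfin : ∀ U : Subgroup G, IsOpen (U : Set G) → U.index ≠ 0 := by
    intro U hU
    haveI : Finite (G ⧸ U) := U.quotient_finite_of_isOpen hU
    haveI : U.FiniteIndex := Subgroup.finiteIndex_of_finite_quotient
    exact Subgroup.FiniteIndex.index_ne_zero
  have hKo : IsOpen ((K.toSubgroup : Subgroup G) : Set G) := K.isOpen
  -- the bound
  have hbound : ∀ U : Subgroup G, IsOpen (U : Set G) → Z ≤ U →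
      U.index ≤ p ^ C * K.toSubgroup.index := by
    intro U hU hZU
    obtain ⟨a, ha⟩ := relIndex_pow p hp1 f hf K.toSubgroup hKo hK' U hU (hker.trans hZU)
    have e1 := Subgroup.relIndex_mul_index (inf_le_left : U ⊓ K.toSubgroup ≤ U)
    have e2 := Subgroup.relIndex_mul_index (inf_le_right : U ⊓ K.toSubgroup ≤ K.toSubgroup)
    rw [Subgroup.inf_relIndex_left] at e1
    rw [Subgroup.inf_relIndex_right, ← e1, ha] at e2
    -- `p ^ a * K.index = K.relIndex U * U.index`
    have hdv : K.toSubgroup.relIndex U ∣ K.toSubgroup.index :=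
      Subgroup.relIndex_dvd_index_of_normal _ _
    obtain ⟨t, ht⟩ := hdv
    have hKi := hfin _ hKo
    have hr0 : K.toSubgroup.relIndex U ≠ 0 := by
      intro h0; rw [h0, zero_mul] at ht; exact hKi ht
    have e3 : U.index = p ^ a * t := by
      have : K.toSubgroup.relIndex U * (p ^ a * t) = K.toSubgroup.relIndex U * U.index := by
        rw [← e2, ht]; ring
      exact (Nat.eq_of_mul_eq_mul_left (Nat.pos_of_ne_zero hr0) this).symm
    have haC : a ≤ C := by
      by_contra hlt
      push Not at hlt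
      exact hC U hU hZU ((pow_dvd_pow p hlt).trans ⟨t, e3⟩)
    have h1 : U.index ≤ K.toSubgroup.relIndex U * U.index :=
      Nat.le_mul_of_pos_left _ (Nat.pos_of_ne_zero hr0)
    rw [← e2] at h1
    apply h1.trans
    exact Nat.mul_le_mul_right _ (Nat.pow_le_pow_right (Fact.out : p.Prime).pos haC)
  -- the smallest open subgroup containing `Z`
  have hne : {n : ℕ | ∃ U : Subgroup G, IsOpen (U : Set G) ∧ Z ≤ U ∧ U.index = n}.Nonempty :=
    ⟨_, ⊤, isOpen_univ, le_top, rfl⟩
  have hbd : BddAbove {n : ℕ | ∃ U : Subgroup G, IsOpen (U : Set G) ∧ Z ≤ U ∧ U.index = n} := by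
    refine ⟨p ^ C * K.toSubgroup.index, ?_⟩
    rintro n ⟨U, hU, hZU, rfl⟩
    exact hbound U hU hZU
  obtain ⟨U0, hU0, hZU0, hmax⟩ := Nat.sSup_mem hne hbd
  have hleast : ∀ U : Subgroup G, IsOpen (U : Set G) → Z ≤ U → U0 ≤ U := by
    intro U hU hZU
    have ho : IsOpen ((U ⊓ U0 : Subgroup G) : Set G) := hU.inter hU0
    have h1 : (U ⊓ U0).index ≤ U0.index := by
      rw [hmax]
      exact le_csSup hbd ⟨_, ho, le_inf hZU hZU0, rfl⟩
    have e1 := Subgroup.relIndex_mul_index (inf_le_right : U ⊓ U0 ≤ U0)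
    rw [Subgroup.inf_relIndex_right] at e1
    have h2 := hfin _ hU0
    have h3 := hfin _ ho
    have h4 : U.relIndex U0 = 1 := by
      have h5 : U.relIndex U0 ≠ 0 := by
        intro h; rw [h, zero_mul] at e1; exact h3 e1.symm
      by_contra hne1
      have h6 : 2 ≤ U.relIndex U0 := by omega
      have : 2 * U0.index ≤ U.relIndex U0 * U0.index := Nat.mul_le_mul_right _ h6
      omega
    exact Subgroup.relIndex_eq_one.mp h4
  have hZeq : Z = U0 := by
    apply le_antisymm hZU0
    have h := ProfiniteGrp.closedSubgroup_eq_sInf_open (⟨Z, hZ⟩ : ClosedSubgroup G)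
    have h' : Z = sInf {N : Subgroup G | IsOpen (N : Set G) ∧ Z ≤ N} := h
    rw [h']
    exact le_sInf (fun U hU => hleast U hU.1 hU.2)
  rw [hZeq]
  exact hU0

end Pool.Agent.H73.BI
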